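import Mathlib
import Pool.Agent.H135Z.Wei.Main

set_option autoImplicit false

namespace Pool.Agent.Results.MP_22f354_an.AlmostEveryLevel

open MeasureTheory Pool.Agent.H135Z.Wei

/-- For every integer `b ≥ 2` and `0 < α < 1`, for a prevalent Lipschitz function `g` on the
circle, Lebesgue almost every `y` in the range of the Weierstrass function has a level set of
Hausdorff dimension `1 - α`. -/
theorem result : ∀ (b : ℕ), 2 ≤ b → ∀ (α : ℝ), 0 < α → α < 1 →
    Prevalent {g : Lip | ∀ᵐ y ∂(volume : Measure ℝ), y ∈ Set.range (weier α b g) →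
      dimH (weier α b g ⁻¹' {y}) = ENNReal.ofReal (1 - α)} :=
  main

end Pool.Agent.Results.MP_22f354_an.AlmostEveryLevel
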